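import Pool.Agent.BoltzM.Calc.Torus

/-! Locality, scaling and periodisation in the smooth classes. -/

set_option autoImplicit false
set_option linter.unusedSectionVars false

open Filter Topology

namespace Pool.Agent.BoltzM.BoltzC

variable [Dim]

variable {F : Type*} [AddCommGroup F] [Module ℝ F] [TopologicalSpace F]
  [IsTopologicalAddGroup F] [ContinuousSMul ℝ F] [T2Space F]
variable {T : Type*} [TopologicalSpace T]

theorem tendsto_line (x : E3) (i : Ix) : Tendsto (fun t : ℝ => x + t • ev i) (𝓝 0) (𝓝 x) := by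
  have : Continuous fun t : ℝ => x + t • ev i := by fun_prop
  simpa using this.tendsto 0

theorem dX_congr_ev {G H : E3 → F} {x : E3} (h : G =ᶠ[𝓝 x] H) (i : Ix) :
    dX i G x = dX i H x := by
  unfold dX limUnder
  congr 1
  apply Filter.map_congr
  filter_upwards [((tendsto_line x i).eventually h).filter_mono nhdsWithin_le_nhds] with t ht
  rw [ht, h.eq_of_nhds]

theorem dX_ev {G H : E3 → F} {x : E3} (h : G =ᶠ[𝓝 x] H) (i : Ix) :
    dX i G =ᶠ[𝓝 x] dX i H :=
  h.eventuallyEq_nhds.mono fun _ hy => dX_congr_ev hy i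

theorem dXw_ev {G H : E3 → F} {x : E3} (h : G =ᶠ[𝓝 x] H) (u : List Ix) :
    dXw u G =ᶠ[𝓝 x] dXw u H := by
  induction u generalizing G H with
  | nil => exact h
  | cons i u ih => exact ih (dX_ev h i)

theorem dXw_congr_ev {G H : E3 → F} {x : E3} (h : G =ᶠ[𝓝 x] H) (u : List Ix) :
    dXw u G x = dXw u H x := (dXw_ev h u).eq_of_nhds

/-- Support in the closed ball of radius `ρ`. -/
def Supp {α : Type*} [Zero α] (ρ : ℝ) (G : E3 → α) : Prop := ∀ x, ρ < ‖x‖ → G x = 0

theorem Supp.mono {α : Type*} [Zero α] {ρ ρ' : ℝ} {G : E3 → α} (h : Supp ρ G) (hρ : ρ ≤ ρ') :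
    Supp ρ' G := fun x hx => h x (hρ.trans_lt hx)

theorem Supp.ev {α : Type*} [Zero α] {ρ : ℝ} {G : E3 → α} (h : Supp ρ G) {x : E3} (hx : ρ < ‖x‖) :
    G =ᶠ[𝓝 x] fun _ => 0 :=
  ((isOpen_lt continuous_const continuous_norm).eventually_mem hx).mono fun y hy => h y hy

theorem Supp.dX {ρ : ℝ} {G : E3 → F} (h : Supp ρ G) (i : Ix) : Supp ρ (dX i G) := by
  intro x hx
  rw [dX_congr_ev (h.ev hx), dX_const]

theorem Supp.dXw {ρ : ℝ} {G : E3 → F} (h : Supp ρ G) (u : List Ix) : Supp ρ (dXw u G) := by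
  induction u generalizing G with
  | nil => exact h
  | cons i u ih => exact ih (h.dX i)

theorem Supp.scale {α : Type*} [Zero α] {ρ lam : ℝ} {G : E3 → α} (h : Supp ρ G) (hl : 0 < lam) :
    Supp (ρ / lam) fun x => G (lam • x) := by
  intro x hx
  apply h
  rw [norm_smul, Real.norm_eq_abs, abs_of_pos hl, mul_comm]
  exact (div_lt_iff₀ hl).mp hx

/-! ### Scaling -/

theorem HD.comp_mul {γ : ℝ → F} {a : F} (h : HD γ a 0) (lam : ℝ) :
    HD (fun t => γ (lam * t)) (lam • a) 0 := by
  rcases eq_or_ne lam 0 with rfl | hl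
  · simpa using HD.const (γ 0) 0
  unfold HD at *
  have h1 : Tendsto (fun t : ℝ => lam * t) (𝓝[≠] 0) (𝓝[≠] 0) := by
    apply tendsto_nhdsWithin_of_tendsto_nhds_of_eventually_within
    · have : Continuous fun t : ℝ => lam * t := by fun_prop
      simpa using (this.tendsto 0).mono_left nhdsWithin_le_nhds
    · filter_upwards [self_mem_nhdsWithin] with t ht
      exact mul_ne_zero hl ht
  refine ((h.comp h1).const_smul lam).congr fun t => ?_
  simp only [Function.comp, zero_add, mul_zero, smul_smul, mul_inv]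
  rw [← mul_assoc, mul_inv_cancel₀ hl, one_mul]

theorem Dif.hd_scale {G : E3 → F} (h : Dif G) (lam : ℝ) (i : Ix) (x : E3) :
    HD (fun t : ℝ => G (lam • (x + t • ev i))) (lam • dX i G (lam • x)) 0 := by
  refine ((h i (lam • x)).comp_mul lam).congr fun t => ?_
  rw [smul_add, smul_smul]

theorem dX_scale {G : E3 → F} (h : Dif G) (lam : ℝ) (i : Ix) :
    dX i (fun x => G (lam • x)) = fun x => lam • dX i G (lam • x) :=
  funext fun x => dX_eq (h.hd_scale lam i x)

theorem SmC.scale {g : T → E3 → F} (hg : SmC g) {lam : T → ℝ} (hl : Continuous lam) :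
    SmC fun s x => g s (lam s • x) := by
  refine smC_coind (fun k => ∃ G : T → E3 → F, SmC G ∧ k = fun s x => G s (lam s • x)) ?_
    ⟨g, hg, rfl⟩
  rintro k ⟨G, hG, rfl⟩
  refine ⟨hG.cont.comp (f := fun p : T × E3 => (p.1, lam p.1 • p.2)) (by fun_prop), fun i =>
    ⟨_, ⟨fun s x => lam s • BoltzC.dX i (G s) x, (SmC.of_time hl).smul (hG.dX i), rfl⟩,
      fun s x => (hG.dif s).hd_scale (lam s) i x⟩⟩

theorem Sm.scale {G : E3 → F} (hG : Sm G) (lam : ℝ) : Sm fun x => G (lam • x) :=
  SmC.scale hG (lam := fun _ => lam) continuous_const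

theorem dXw_scale {G : E3 → F} (h : Sm G) (lam : ℝ) (u : List Ix) :
    dXw u (fun x => G (lam • x)) = fun x => lam ^ u.length • dXw u G (lam • x) := by
  induction u generalizing G with
  | nil => simp
  | cons i u ih =>
    rw [dXw_cons, dX_scale h.dif, dXw_const_smul ((h.dX i).scale lam), ih (h.dX i)]
    funext x
    simp only [smul_smul, List.length_cons, pow_succ', dXw_cons]

theorem HD.comp_add {γ : ℝ → F} {a : F} {s θ : ℝ} (h : HD γ a (s + θ)) :
    HD (fun t => γ (t + θ)) a s := by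
  unfold HD at *
  simpa only [add_right_comm] using h

theorem SmD.shift_scale {g g' : ℝ → E3 → F} (h : SmD g g') (θ lam : ℝ) :
    SmD (fun s x => g (s + θ) (lam • x)) fun s x => g' (s + θ) (lam • x) :=
  ⟨(h.sm.reparam (r := fun s => s + θ) (by fun_prop)).scale (lam := fun _ => lam) continuous_const,
    (h.sm'.reparam (r := fun s => s + θ) (by fun_prop)).scale (lam := fun _ => lam)
      continuous_const, fun s x => (h.hd (s + θ) (lam • x)).comp_add⟩

/-! ### Periodisation -/

/-- Reduction to the period cell centred at the origin. -/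
noncomputable def red (x : E3) : E3 := x - WithLp.toLp 2 fun i => (round (x i) : ℝ)

theorem red_apply (x : E3) (i : Ix) : red x i = x i - round (x i) := rfl

theorem red_add_ev (x : E3) (j : Ix) : red (x + ev j) = red x := by
  ext i
  rw [red_apply, red_apply]
  by_cases h : i = j
  · subst h; simp [ev, round_add_one]
  · simp [ev, h]

theorem red_eq_self {x : E3} (h : ‖x‖ < 1 / 2) : red x = x := by
  ext i
  have h1 : |x i| < 1 / 2 := lt_of_le_of_lt (by simpa using PiLp.norm_apply_le x i) h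
  have h2 : round (x i) = 0 := by
    rw [round_eq_zero_iff]
    constructor <;> linarith [(abs_lt.mp h1).1, (abs_lt.mp h1).2]
  simp [red_apply, h2]

theorem Per.red {α : Type*} {G : E3 → α} (h : Per G) (x : E3) : G (red x) = G x := by
  rw [← h.add_of_int (fun i => round (x i)) (z := WithLp.toLp 2 fun i => (round (x i) : ℝ))
    (fun _ => rfl) (BoltzC.red x), BoltzC.red, sub_add_cancel]

theorem norm_red_le (x : E3) (n : Ix → ℤ) :
    ‖red x‖ ≤ ‖x - WithLp.toLp 2 fun i => (n i : ℝ)‖ := by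
  rw [EuclideanSpace.norm_eq, EuclideanSpace.norm_eq]
  refine Real.sqrt_le_sqrt (Finset.sum_le_sum fun i _ => ?_)
  refine pow_le_pow_left₀ (norm_nonneg _) ?_ 2
  simpa [red_apply] using round_le (x i) (n i)

theorem norm_red_le_norm (x : E3) : ‖red x‖ ≤ ‖x‖ := by
  refine (norm_red_le x 0).trans (le_of_eq ?_)
  congr 1
  ext i
  simp

theorem lipschitz_norm_red (x y : E3) : ‖red y‖ ≤ ‖red x‖ + ‖y - x‖ := by
  refine (norm_red_le y fun i => round (x i)).trans ?_
  have : (y - WithLp.toLp 2 fun i => (round (x i) : ℝ)) = red x + (y - x) := by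
    unfold red; abel
  rw [this]
  exact norm_add_le _ _

theorem continuous_norm_red : Continuous fun x => ‖red x‖ := by
  refine (LipschitzWith.of_dist_le_mul (K := 1) fun x y => ?_).continuous
  rw [Real.dist_eq, dist_eq_norm, NNReal.coe_one, one_mul, abs_le]
  have h1 := lipschitz_norm_red x y
  have h2 := lipschitz_norm_red y x
  rw [norm_sub_rev] at h1
  constructor <;> linarith

theorem red_ev {x : E3} (h : ‖red x‖ < 1 / 2) : ∀ᶠ y in 𝓝 x, red y = red x + (y - x) := by
  have h1 : ∀ᶠ y in 𝓝 x, ‖red x + (y - x)‖ < 1 / 2 := by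
    have : Continuous fun y : E3 => ‖red x + (y - x)‖ := by fun_prop
    exact this.continuousAt.eventually (gt_mem_nhds (by simpa using h))
  filter_upwards [h1] with y hy
  have hp : Per red := fun i z => red_add_ev z i
  rw [← red_eq_self hy, ← hp.add_of_int (fun i => round (x i))
    (z := WithLp.toLp 2 fun i => (round (x i) : ℝ)) (fun _ => rfl) (red x + (y - x))]
  congr 1
  unfold red
  abel

theorem red_far {x : E3} {ρ : ℝ} (h : ρ < ‖red x‖) : ∀ᶠ y in 𝓝 x, ρ < ‖red y‖ :=
  continuous_norm_red.continuousAt.eventually (lt_mem_nhds h)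

/-- Periodisation of a function supported in a small ball. -/
noncomputable def per {α : Type*} (G : E3 → α) (x : E3) : α := G (red x)

theorem per_per {α : Type*} (G : E3 → α) : Per (per G) := fun i x => by
  simp only [per, red_add_ev]

theorem per_eq {α : Type*} (G : E3 → α) {x : E3} (h : ‖x‖ < 1 / 2) : per G x = G x := by
  simp only [per, red_eq_self h]

theorem Per.per_eq {α : Type*} {G : E3 → α} (h : Per G) : per G = G := funext h.red

theorem Dif.hd_per {G : E3 → F} (h : Dif G) {ρ : ℝ} (hs : Supp ρ G) (hρ : ρ < 1 / 2) (i : Ix)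
    (x : E3) : HD (fun t : ℝ => per G (x + t • ev i)) (per (dX i G) x) 0 := by
  by_cases hx : ‖red x‖ < 1 / 2
  · refine (h i (red x)).congr_of_eventuallyEq ?_
    filter_upwards [(tendsto_line x i).eventually (red_ev hx)] with t ht
    simp only [per, ht, add_sub_cancel_left]
  · have h1 : ρ < ‖red x‖ := hρ.trans_le (not_lt.mp hx)
    have h2 : per (dX i G) x = 0 := hs.dX i _ h1
    rw [h2]
    refine (HD.const (0 : F) 0).congr_of_eventuallyEq ?_
    filter_upwards [(tendsto_line x i).eventually (red_far h1)] with t ht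
    exact (hs _ ht).symm

theorem dX_per {G : E3 → F} (h : Dif G) {ρ : ℝ} (hs : Supp ρ G) (hρ : ρ < 1 / 2) (i : Ix) :
    dX i (per G) = per (dX i G) := funext fun x => dX_eq (h.hd_per hs hρ i x)

theorem dXw_per {G : E3 → F} (h : Sm G) {ρ : ℝ} (hs : Supp ρ G) (hρ : ρ < 1 / 2)
    (u : List Ix) : dXw u (per G) = per (dXw u G) := by
  induction u generalizing G with
  | nil => rfl
  | cons i u ih => rw [dXw_cons, dX_per h.dif hs hρ, ih (h.dX i) (hs.dX i), dXw_cons]

theorem continuous_per {α : Type*} [TopologicalSpace α] [Zero α] {g : T → E3 → α}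
    (hg : Continuous fun p : T × E3 => g p.1 p.2) {ρ : ℝ} (hs : ∀ s, Supp ρ (g s))
    (hρ : ρ < 1 / 2) : Continuous fun p : T × E3 => per (g p.1) p.2 := by
  rw [continuous_iff_continuousAt]
  rintro ⟨s, x⟩
  by_cases hx : ‖red x‖ < 1 / 2
  · have h1 : Continuous fun p : T × E3 => g p.1 (red x + (p.2 - x)) :=
      hg.comp (f := fun p : T × E3 => (p.1, red x + (p.2 - x))) (by fun_prop)
    refine h1.continuousAt.congr ?_
    filter_upwards [(continuous_snd.tendsto (s, x)).eventually (red_ev hx)] with p hp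
    simp only [per, hp]
  · have h1 : ρ < ‖red x‖ := hρ.trans_le (not_lt.mp hx)
    refine (continuousAt_const (y := (0 : α))).congr ?_
    filter_upwards [(continuous_snd.tendsto (s, x)).eventually (red_far h1)] with p hp
    exact (hs _ _ hp).symm

theorem SmC.per {g : T → E3 → F} (hg : SmC g) {ρ : ℝ} (hs : ∀ s, Supp ρ (g s)) (hρ : ρ < 1 / 2) :
    SmC fun s => per (g s) := by
  refine smC_coind (fun k => ∃ G : T → E3 → F, SmC G ∧ (∀ s, Supp ρ (G s)) ∧
    k = fun s => BoltzC.per (G s)) ?_ ⟨g, hg, hs, rfl⟩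
  rintro k ⟨G, hG, hGs, rfl⟩
  exact ⟨continuous_per hG.cont hGs hρ, fun i =>
    ⟨_, ⟨fun s => BoltzC.dX i (G s), hG.dX i, fun s => (hGs s).dX i, rfl⟩,
      fun s x => (hG.dif s).hd_per (hGs s) hρ i x⟩⟩

theorem Sm.per {G : E3 → F} (hG : Sm G) {ρ : ℝ} (hs : Supp ρ G) (hρ : ρ < 1 / 2) : Sm (per G) :=
  SmC.per hG (fun _ => hs) hρ

theorem SmD.supp' {g g' : ℝ → E3 → F} (h : SmD g g') {ρ : ℝ} (hs : ∀ s, Supp ρ (g s)) (s : ℝ) :
    Supp ρ (g' s) := fun x hx =>
  (h.hd s x).unique ((HD.const (0 : F) s).congr fun t => (hs t x hx).symm)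

theorem SmD.per {g g' : ℝ → E3 → F} (h : SmD g g') {ρ : ℝ} (hs : ∀ s, Supp ρ (g s))
    (hρ : ρ < 1 / 2) : SmD (fun s => per (g s)) fun s => per (g' s) :=
  ⟨h.sm.per hs hρ, h.sm'.per (h.supp' hs) hρ, fun s x => h.hd s (red x)⟩

end Pool.Agent.BoltzM.BoltzC
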