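import Pool.Agent.BoltzM.Lin.Loc

/-! Integrals over the whole space of compactly supported functions, Gronwall's inequality. -/

set_option autoImplicit false
set_option linter.unusedSectionVars false

open Filter Topology MeasureTheory Set

namespace Pool.Agent.BoltzM.BoltzC

variable [Dim]

theorem Supp.hasCompactSupport {α : Type*} [Zero α] {ρ : ℝ} {φ : E3 → α} (h : Supp ρ φ) :
    HasCompactSupport φ :=
  HasCompactSupport.intro (isCompact_closedBall (0 : E3) ρ) fun x hx =>
    h x (by simpa using hx)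

theorem Supp.integrable {ρ : ℝ} {φ : E3 → ℝ} (h : Supp ρ φ) (hc : Continuous φ) : Integrable φ :=
  hc.integrable_of_hasCompactSupport h.hasCompactSupport

/-- The corner of the cube of side `2 * a` centred at the origin. -/
noncomputable def corner (a : ℝ) : E3 := WithLp.toLp 2 fun _ => -a

theorem mem_cube_corner {a : ℝ} {x : E3} (h : ‖x‖ < a) : x ∈ cube (corner a) (2 * a) := by
  intro i
  have h1 : |x i| < a := lt_of_le_of_lt (by simpa using PiLp.norm_apply_le x i) h
  have h2 := abs_lt.mp h1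
  constructor
  · exact h2.1
  · show x i ≤ -a + 2 * a
    linarith [h2.2]

theorem Supp.integral_cube {ρ a : ℝ} {φ : E3 → ℝ} (h : Supp ρ φ) (ha : ρ < a) :
    ∫ x in cube (corner a) (2 * a), φ x = ∫ x, φ x := by
  refine setIntegral_eq_integral_of_forall_compl_eq_zero fun x hx => h x ?_
  by_contra hlt
  exact hx (mem_cube_corner ((not_lt.mp hlt).trans_lt ha))

theorem tint_per {ρ : ℝ} {φ : E3 → ℝ} (hc : Continuous φ) (h : Supp ρ φ) (hρ : ρ < 1 / 2) :
    tint (per φ) = ∫ x, φ x := by
  have hpc : Continuous (per φ) :=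
    (continuous_per (T := Unit) (g := fun _ => φ) (hc.comp continuous_snd) (fun _ => h) hρ).comp
      (Continuous.prodMk_right ())
  rw [← integral_cube_eq_tint (per_per φ) hpc (corner (1 / 2)), ← h.integral_cube hρ]
  have e : (2 : ℝ) * (1 / 2) = 1 := by norm_num
  rw [e]
  refine setIntegral_congr_fun (measurableSet_cube _ _) fun x hx => ?_
  by_cases h1 : ‖x‖ < 1 / 2
  · exact per_eq φ h1
  · have h2 : ρ < ‖x‖ := hρ.trans_le (not_lt.mp h1)
    have h3 : ‖red x‖ = ‖x‖ := by
      rw [EuclideanSpace.norm_eq, EuclideanSpace.norm_eq]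
      congr 1
      refine Finset.sum_congr rfl fun i _ => ?_
      have h4 : -(1 / 2) < x i := (hx i).1
      have h5 : x i ≤ -(1 / 2) + 1 := (hx i).2
      rw [red_apply]
      rcases eq_or_lt_of_le h5 with h6 | h6
      · have h7 : x i = 1 / 2 := by linarith
        rw [h7, one_div, round_two_inv]
        norm_num
      · have : round (x i) = 0 := by
          rw [round_eq_zero_iff]
          constructor <;> linarith
        simp [this]
    show φ (red x) = φ x
    rw [h x h2, h _ (h3 ▸ h2)]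

theorem integral_deriv_eq_zero {ρ : ℝ} {φ φ' : E3 → ℝ} {z : E3} (h : Supp ρ φ) (h' : Supp ρ φ')
    (hc : Continuous φ) (hc' : Continuous φ')
    (hd : ∀ x, HasDerivAt (fun t : ℝ => φ (x + t • z)) (φ' x) 0) : ∫ x, φ' x = 0 := by
  have := integral_bilinear_hasLineDerivAt_right_eq_neg_left_of_integrable (μ := volume)
    (f := φ) (f' := φ') (g := fun _ => (1 : ℝ)) (g' := fun _ => (0 : ℝ)) (v := z)
    (B := ContinuousLinearMap.mul ℝ ℝ) (by simpa using h'.integrable hc') (by simp)
    (by simpa using h.integrable hc) (fun x _ => hd x)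
    (fun x _ => by simpa [HasLineDerivAt] using hasDerivAt_const (0 : ℝ) (1 : ℝ))
  simpa using this

theorem integral_scale (φ : E3 → ℝ) {lam : ℝ} (hl : 0 < lam) :
    ∫ x, φ (lam • x) = (lam ^ dd)⁻¹ * ∫ x, φ x := by
  rw [Measure.integral_comp_smul, finrank_Ix, abs_of_pos (by positivity), smul_eq_mul]

theorem gronwall_le {e e' : ℝ → ℝ} {a b K H : ℝ} (hd : ∀ s, HasDerivAt e (e' s) s)
    (hb : ∀ s ∈ Icc a b, e' s ≤ K * e s + H) :
    ∀ s ∈ Icc a b, e s ≤ gronwallBound (e a) K H (s - a) :=
  le_gronwallBound_of_liminf_deriv_right_le (f' := e')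
    (fun s _ => (hd s).continuousAt.continuousWithinAt)
    (fun s _ r hr => by
      simpa [slope_def_field, div_eq_inv_mul] using
        (hd s).hasDerivWithinAt.liminf_right_slope_le hr)
    le_rfl fun s hs => hb s (Ico_subset_Icc_self hs)

theorem gronwallBound_le {δ K H t : ℝ} (hH : 0 ≤ H) (ht : 0 ≤ t) :
    gronwallBound δ K H t ≤ δ * Real.exp (K * t) + H * t * Real.exp (|K| * t) := by
  have h1 : 1 ≤ Real.exp (|K| * t) := Real.one_le_exp (by positivity)
  rcases eq_or_ne K 0 with rfl | hK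
  · simp [gronwallBound_K0]
  rw [gronwallBound_of_K_ne_0 hK]
  refine add_le_add le_rfl ?_
  rw [div_mul_eq_mul_div, mul_div_assoc, mul_assoc]
  refine mul_le_mul_of_nonneg_left ?_ hH
  rcases lt_or_gt_of_ne hK with hK | hK
  · rw [div_le_iff_of_neg hK]
    have h2 := Real.add_one_le_exp (K * t)
    have h3 : t * Real.exp (|K| * t) * K ≤ t * 1 * K :=
      mul_le_mul_of_nonpos_right (mul_le_mul_of_nonneg_left h1 ht) hK.le
    linarith
  · rw [div_le_iff₀ hK, abs_of_pos hK]
    have h2 := Real.add_one_le_exp (-(K * t))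
    have h3 : Real.exp (K * t) * Real.exp (-(K * t)) = 1 := by rw [← Real.exp_add]; simp
    have h4 := mul_le_mul_of_nonneg_left h2 (Real.exp_pos (K * t)).le
    nlinarith

theorem gronwall_le' {e e' : ℝ → ℝ} {a b K H : ℝ} (hd : ∀ s, HasDerivAt e (e' s) s) (hH : 0 ≤ H)
    (hb : ∀ s ∈ Icc a b, e' s ≤ K * e s + H) (s : ℝ) (hs : s ∈ Icc a b) :
    e s ≤ e a * Real.exp (K * (s - a)) + H * (s - a) * Real.exp (|K| * (s - a)) :=
  (gronwall_le hd hb s hs).trans (gronwallBound_le hH (sub_nonneg.mpr hs.1))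

end Pool.Agent.BoltzM.BoltzC
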