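import Pool.Agent.BoltzM.Lin.WInt

/-! Finite speed of propagation for symmetric first order systems. -/

set_option autoImplicit false
set_option linter.unusedSectionVars false

open Filter Topology MeasureTheory Set

namespace Pool.Agent.BoltzM.BoltzC

variable [Dim]

variable {F : Type*} [AddCommGroup F] [Module ℝ F] [TopologicalSpace F]
  [IsTopologicalAddGroup F] [ContinuousSMul ℝ F] [T2Space F]

theorem hasDerivAt_normSq_line (x p : E3) (i : Ix) :
    HasDerivAt (fun t : ℝ => ‖x + t • ev i - p‖ ^ 2) (2 * (x - p) i) 0 := by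
  have h1 : HasDerivAt (fun t : ℝ => x + t • ev i - p) (ev i) 0 := by
    simpa using (((hasDerivAt_id (0 : ℝ)).smul_const (ev i)).const_add x).sub_const p
  have h2 := h1.norm_sq
  simpa [ev, EuclideanSpace.inner_single_right] using h2

theorem exists_eta : ∃ η' : ℝ → ℝ, (∀ t, HasDerivAt expNegInvGlue (η' t) t) ∧
    Continuous η' ∧ (∀ t, 0 ≤ η' t) ∧ ∀ t, t < 0 → η' t = 0 := by
  refine ⟨deriv expNegInvGlue, fun t =>
    ((expNegInvGlue.contDiff (n := 1)).differentiable one_ne_zero t).hasDerivAt,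
    (expNegInvGlue.contDiff (n := 1)).continuous_deriv le_rfl,
    fun t => expNegInvGlue.monotone.deriv_nonneg, fun t ht => ?_⟩
  have : expNegInvGlue =ᶠ[𝓝 t] fun _ => 0 :=
    (gt_mem_nhds ht : ∀ᶠ y in 𝓝 t, y < 0).mono fun y hy => expNegInvGlue.zero_of_nonpos hy.le
  rw [this.deriv_eq, deriv_const]

theorem continuous_eta : Continuous expNegInvGlue := (expNegInvGlue.contDiff (n := 1)).continuous

theorem cone_aux (η η' : ℝ → ℝ) (hηd : ∀ t, HasDerivAt η (η' t) t) (hηc : Continuous η)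
    (hηc' : Continuous η') (hη1 : ∀ t, 0 ≤ η t) (hη0 : ∀ t, 0 ≤ η' t)
    (hηy : ∀ t, t < 0 → η t = 0) (hηz : ∀ t, t < 0 → η' t = 0)
    (B : F →ₗ[ℝ] F →ₗ[ℝ] ℝ) (hB : Continuous fun p : F × F => B p.1 p.2)
    (hsy : ∀ a b, B a b = B b a) (hp : ∀ a, 0 ≤ B a a) (M : Ix → F →L[ℝ] F)
    (hM : ∀ i a b, B (M i a) b = B a (M i b)) (κ : ℝ) (hκ : ∀ i a, |B (M i a) a| ≤ κ * B a a)
    {u : Ix → ℝ → E3 → ℝ} {c : ℝ → E3 → ℝ}
    (hu : ∀ i, SmC (u i)) (hc : SmC c) (p : E3) {s0 s1 : ℝ} {r r' : ℝ → ℝ}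
    (hr : ∀ s, HasDerivAt r (r' s) s) (hr' : Continuous r') (hr0 : ∀ s ∈ Icc s0 s1, 0 ≤ r s)
    (hsp : ∀ s ∈ Icc s0 s1, ∀ x, ‖x - p‖ ≤ r s → ∀ i, dd * (|u i s x| + κ * |c s x|) ≤ -r' s)
    (Kz : ℝ) : ∃ K : ℝ, ∀ W W' : ℝ → E3 → F, SmD W W' →
      (∀ s ∈ Icc s0 s1, ∀ x, ‖x - p‖ ≤ r s →
        B (W' s x + ∑ i, (u i s x • dX i (W s) x + c s x • M i (dX i (W s) x))) (W s x)
          ≤ Kz * B (W s x) (W s x)) →
      ∀ s ∈ Icc s0 s1, ∫ x, η (r s ^ 2 - ‖x - p‖ ^ 2) * B (W s x) (W s x) ≤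
        (∫ x, η (r s0 ^ 2 - ‖x - p‖ ^ 2) * B (W s0 x) (W s0 x)) * Real.exp (K * (s - s0)) := by
  have hrc : Continuous r := continuous_iff_continuousAt.2 fun s => (hr s).continuousAt
  -- the weight
  set a : ℝ → E3 → ℝ := fun s x => r s ^ 2 - ‖x - p‖ ^ 2 with ha
  have hac : Continuous fun z : ℝ × E3 => a z.1 z.2 := by
    simp only [ha]; fun_prop
  have haneg : ∀ s ∈ Icc s0 s1, ∀ x, ¬‖x - p‖ ≤ r s → a s x < 0 := by
    intro s hs x hx
    have := hr0 s hs
    push Not at hx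
    simp only [ha]
    nlinarith
  -- bounds on the compact set
  obtain ⟨R, hR⟩ := (isCompact_Icc (a := s0) (b := s1)).exists_bound_of_continuousOn
    hrc.continuousOn
  have hcomp := (isCompact_Icc (a := s0) (b := s1)).prod (isCompact_closedBall p R)
  have hDc : Continuous fun z : ℝ × E3 =>
      ∑ i, (|dX i (u i z.1) z.2| + κ * |dX i (c z.1) z.2|) :=
    continuous_finsetSum _ fun i _ =>
      ((hu i).dX i).cont.abs.add (continuous_const.mul (hc.dX i).cont.abs)
  obtain ⟨Kd, hKd⟩ := hcomp.exists_bound_of_continuousOn hDc.continuousOn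
  refine ⟨2 * Kz + Kd, fun W W' hW hz s hs01 => ?_⟩
  -- quadratic quantities
  have hq := SmD.bilin B hB hW hW
  set q : ℝ → E3 → ℝ := fun s x => B (W s x) (W s x) with hqd
  set m : Ix → ℝ → E3 → ℝ := fun i s x => B (M i (W s x)) (W s x) with hmd
  have hm : ∀ i, SmC (m i) := fun i => SmC.bilin B hB (hW.sm.clm (M i)) hW.sm
  set j : Ix → ℝ → E3 → ℝ := fun i s x => u i s x * q s x + c s x * m i s x with hjd
  have hj : ∀ i, SmC (j i) := fun i => ((hu i).mul hq.sm).add (hc.mul (hm i))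
  have hdj : ∀ i s x, dX i (j i s) x = (dX i (u i s) x * q s x + dX i (c s) x * m i s x)
      + 2 * B (u i s x • dX i (W s) x + c s x • M i (dX i (W s) x)) (W s x) := by
    intro i s x
    have e1 := congrFun (dX_add (((hu i).mul hq.sm).dif s) ((hc.mul (hm i)).dif s) i) x
    have e2 := congrFun (dX_mul ((hu i).dif s) (hq.sm.dif s) i) x
    have e3 := congrFun (dX_mul (hc.dif s) ((hm i).dif s) i) x
    have e4 := congrFun (dX_bilin B hB (hW.sm.dif s) (hW.sm.dif s) i) x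
    have e5 := congrFun (dX_bilin B hB ((hW.sm.clm (M i)).dif s) (hW.sm.dif s) i) x
    have e6 := congrFun (dX_clm (hW.sm.dif s) (M i) i) x
    rw [e6, hM i (W s x), hsy (W s x)] at e5
    rw [hsy (W s x)] at e4
    simp only [map_add, map_smul, LinearMap.add_apply, LinearMap.smul_apply, smul_eq_mul]
    simp only [hjd, hqd, hmd]
    rw [e1, e2, e3, e4, e5]
    ring
  set A := R + ‖p‖ + 1 with hA
  have hsupp : ∀ s ∈ Icc s0 s1, ∀ {φ : E3 → ℝ}, (∀ x, a s x < 0 → φ x = 0) →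
      Supp (R + ‖p‖) φ := by
    intro s hs φ hφ x hx
    refine hφ x (haneg s hs x fun h => ?_)
    have h1 := hR s hs
    have h2 := norm_sub_norm_le x p
    rw [Real.norm_eq_abs] at h1
    linarith [le_abs_self (r s)]
  set e : ℝ → ℝ := fun s => ∫ x in cube (corner A) (2 * A), η (a s x) * q s x with he
  set φ' : ℝ → E3 → ℝ := fun s x => η' (a s x) * (2 * r s * r' s) * q s x
    + η (a s x) * (B (W' s x) (W s x) + B (W s x) (W' s x)) with hφ'
  have hφc : Continuous fun z : ℝ × E3 => η (a z.1 z.2) * q z.1 z.2 :=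
    (hηc.comp hac).mul hq.sm.cont
  have hφ'c : Continuous fun z : ℝ × E3 => φ' z.1 z.2 :=
    (((hηc'.comp hac).mul (by fun_prop)).mul hq.sm.cont).add ((hηc.comp hac).mul hq.sm'.cont)
  have hed : ∀ s, HasDerivAt e (∫ x in cube (corner A) (2 * A), φ' s x) s := by
    refine hasDerivAt_integral_cube (fun s => hφc.comp (Continuous.prodMk_right s)) hφ'c
      (fun s x => ?_) _ _
    have h1 : HasDerivAt (fun σ => a σ x) (2 * r s * r' s) s := by
      simpa [ha] using ((hr s).pow 2).sub_const (‖x - p‖ ^ 2)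
    exact ((hηd _).comp s h1).mul (hq.hd s x).hasDerivAt
  have hbd : ∀ s ∈ Icc s0 s1,
      (∫ x in cube (corner A) (2 * A), φ' s x) ≤ (2 * Kz + Kd) * e s + 0 := by
    intro s hs
    have hsl : ∀ {ψ : ℝ × E3 → ℝ}, Continuous ψ → Continuous fun x => ψ (s, x) := fun h =>
      h.comp (Continuous.prodMk_right s)
    set J' : Ix → E3 → ℝ := fun i x =>
      η' (a s x) * (-(2 * (x - p) i)) * j i s x + η (a s x) * dX i (j i s) x with hJ'
    have hJ'c : ∀ i, Continuous (J' i) := fun i =>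
      (((hηc'.comp (hsl hac)).mul (by fun_prop)).mul ((hj i).cont_slice s)).add
        ((hηc.comp (hsl hac)).mul (((hj i).dX i).cont_slice s))
    have hJ's : ∀ i, Supp (R + ‖p‖) (J' i) := fun i => hsupp s hs fun x hx => by
      simp only [hJ', hηz _ hx, hηy _ hx, zero_mul, add_zero]
    have hJ0 : ∀ i, ∫ x, J' i x = 0 := fun i =>
      integral_deriv_eq_zero (φ := fun x => η (a s x) * j i s x) (z := ev i)
        (hsupp s hs fun x hx => by
          simp only [hηy _ hx, zero_mul]) (hJ's i)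
        ((hηc.comp (hsl hac)).mul ((hj i).cont_slice s)) (hJ'c i) fun x => by
          have h1 : HasDerivAt (fun t : ℝ => a s (x + t • ev i)) (-(2 * (x - p) i)) 0 :=
            (hasDerivAt_normSq_line x p i).const_sub _
          have h2 := ((hηd _).comp (0 : ℝ) h1).mul ((hj i).dif s i x).hasDerivAt
          simp only [zero_smul, add_zero, Function.comp_apply] at h2
          exact h2
    have hφ's : Supp (R + ‖p‖) (φ' s) := hsupp s hs fun x hx => by
      simp only [hφ', hηz _ hx, hηy _ hx, zero_mul, add_zero]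
    have hφs : Supp (R + ‖p‖) fun x => η (a s x) * q s x := hsupp s hs fun x hx => by
      simp only [hηy _ hx, zero_mul]
    have hlt : R + ‖p‖ < A := by rw [hA]; linarith
    simp only [he]
    rw [hφ's.integral_cube hlt, hφs.integral_cube hlt, add_zero, ← integral_const_mul]
    have hI1 := hφ's.integrable (hsl hφ'c)
    have hI2 : ∀ i, Integrable (J' i) := fun i => (hJ's i).integrable (hJ'c i)
    have e1 : ∫ x, φ' s x = ∫ x, (φ' s x + ∑ i, J' i x) := by
      rw [integral_add hI1 (integrable_finsetSum _ fun i _ => hI2 i),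
        integral_finsetSum _ fun i _ => hI2 i]
      simp [hJ0]
    rw [e1]
    refine integral_mono (hI1.add (integrable_finsetSum _ fun i _ => hI2 i))
      ((hφs.integrable (hsl hφc)).const_mul _) fun x => ?_
    by_cases hx : ‖x - p‖ ≤ r s
    swap
    · have h1 := haneg s hs x hx
      simp only [hφ', hJ', hηz _ h1, hηy _ h1, zero_mul, add_zero,
        Finset.sum_const_zero, mul_zero, le_refl]
    have hq0 : 0 ≤ q s x := hp _
    have hη1 : 0 ≤ η (a s x) := hη1 _
    have hη2 := hη0 (a s x)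
    have hrs := hr0 s hs
    have h1 : ∀ i, -(2 * (x - p) i) * j i s x ≤ 2 * r s * (-r' s / dd) * q s x := by
      intro i
      have h2 : |(x - p) i| ≤ r s := le_trans (by simpa using PiLp.norm_apply_le (x - p) i) hx
      have h3 : |j i s x| ≤ (-r' s / dd) * q s x := by
        have h4 := abs_add_le (u i s x * q s x) (c s x * m i s x)
        rw [abs_mul, abs_mul, abs_of_nonneg hq0] at h4
        have h5 : |c s x| * |m i s x| ≤ |c s x| * (κ * q s x) :=
          mul_le_mul_of_nonneg_left (hκ i _) (abs_nonneg _)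
        have h6 := mul_le_mul_of_nonneg_right ((le_div_iff₀' dr_pos).2 (hsp s hs x hx i)) hq0
        simp only [hjd]
        linarith
      calc -(2 * (x - p) i) * j i s x ≤ |-(2 * (x - p) i) * j i s x| := le_abs_self _
        _ = 2 * (|(x - p) i| * |j i s x|) := by rw [abs_mul, abs_neg, abs_mul, abs_two]; ring
        _ ≤ 2 * (r s * ((-r' s / dd) * q s x)) := by gcongr
        _ = _ := by ring
    have h2 : ∑ i, (dX i (u i s) x * q s x + dX i (c s) x * m i s x) ≤ Kd * q s x := by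
      have h3 := hKd (s, x) ⟨hs, by
        have h1 := hR s hs
        rw [Real.norm_eq_abs] at h1
        rw [mem_closedBall_iff_norm]
        linarith [le_abs_self (r s)]⟩
      rw [Real.norm_eq_abs] at h3
      refine le_trans ?_ (mul_le_mul_of_nonneg_right ((le_abs_self _).trans h3) hq0)
      rw [Finset.sum_mul]
      refine Finset.sum_le_sum fun i _ => ?_
      have h4 : dX i (u i s) x * q s x ≤ |dX i (u i s) x| * q s x :=
        mul_le_mul_of_nonneg_right (le_abs_self _) hq0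
      have h5 : dX i (c s) x * m i s x ≤ |dX i (c s) x| * (κ * q s x) :=
        (le_abs_self _).trans (by
          rw [abs_mul]; exact mul_le_mul_of_nonneg_left (hκ i _) (abs_nonneg _))
      simp only
      nlinarith
    have h3 := hz s hs x hx
    rw [map_add, LinearMap.add_apply, map_sum, LinearMap.sum_apply] at h3
    have h4 : ∑ i, -(2 * (x - p) i) * j i s x ≤ 2 * r s * (-r' s) * q s x := by
      refine (sum_le_Ix h1).trans (le_of_eq ?_)
      have := dr_ne
      field_simp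
    have h5 : ∑ i, J' i x = η' (a s x) * ∑ i, -(2 * (x - p) i) * j i s x + η (a s x) *
        (∑ i, (dX i (u i s) x * q s x + dX i (c s) x * m i s x) +
          2 * ∑ i, B (u i s x • dX i (W s) x + c s x • M i (dX i (W s) x)) (W s x)) := by
      simp only [hJ', hdj, Finset.mul_sum, ← Finset.sum_add_distrib, mul_assoc]
    have h6 := mul_le_mul_of_nonneg_left h4 hη2
    have h7 := mul_le_mul_of_nonneg_left h2 hη1
    have h8 := mul_le_mul_of_nonneg_left h3 hη1
    simp only [hφ', h5]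
    rw [hsy (W s x) (W' s x)]
    simp only [hqd] at *
    nlinarith
  have hle := gronwall_le' hed le_rfl hbd s hs01
  have hφs : ∀ s ∈ Icc s0 s1, Supp (R + ‖p‖) fun x => η (a s x) * q s x := fun s hs =>
    hsupp s hs fun x hx => by simp only [hηy _ hx, zero_mul]
  have hlt : R + ‖p‖ < A := by rw [hA]; linarith
  simp only [he, zero_mul, add_zero] at hle
  rwa [(hφs s hs01).integral_cube hlt,
    (hφs s0 ⟨le_rfl, hs01.1.trans hs01.2⟩).integral_cube hlt] at hle

theorem cone_est (B : F →ₗ[ℝ] F →ₗ[ℝ] ℝ) (hB : Continuous fun p : F × F => B p.1 p.2)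
    (hsy : ∀ a b, B a b = B b a) (hp : ∀ a, 0 ≤ B a a) (M : Ix → F →L[ℝ] F)
    (hM : ∀ i a b, B (M i a) b = B a (M i b)) (κ : ℝ) (hκ : ∀ i a, |B (M i a) a| ≤ κ * B a a)
    {u : Ix → ℝ → E3 → ℝ} {c : ℝ → E3 → ℝ}
    (hu : ∀ i, SmC (u i)) (hc : SmC c) (p : E3) {s0 s1 : ℝ} {r r' : ℝ → ℝ}
    (hr : ∀ s, HasDerivAt r (r' s) s) (hr' : Continuous r') (hr0 : ∀ s ∈ Icc s0 s1, 0 ≤ r s)
    (hsp : ∀ s ∈ Icc s0 s1, ∀ x, ‖x - p‖ ≤ r s → ∀ i, dd * (|u i s x| + κ * |c s x|) ≤ -r' s)
    (Kz : ℝ) : ∃ K : ℝ, ∀ W W' : ℝ → E3 → F, SmD W W' →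
      (∀ s ∈ Icc s0 s1, ∀ x, ‖x - p‖ ≤ r s →
        B (W' s x + ∑ i, (u i s x • dX i (W s) x + c s x • M i (dX i (W s) x))) (W s x)
          ≤ Kz * B (W s x) (W s x)) →
      ∀ s ∈ Icc s0 s1, ∫ x, expNegInvGlue (r s ^ 2 - ‖x - p‖ ^ 2) * B (W s x) (W s x) ≤
        (∫ x, expNegInvGlue (r s0 ^ 2 - ‖x - p‖ ^ 2) * B (W s0 x) (W s0 x))
          * Real.exp (K * (s - s0)) := by
  obtain ⟨η', h1, h2, h3, h4⟩ := exists_eta
  exact cone_aux _ η' h1 continuous_eta h2 expNegInvGlue.nonneg h3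
    (fun t ht => expNegInvGlue.zero_of_nonpos ht.le) h4 B hB hsy hp M hM κ hκ hu hc p hr hr' hr0
    hsp Kz

theorem supp_eta (p : E3) {r : ℝ} (hr : 0 ≤ r) (q : E3 → ℝ) :
    Supp (r + ‖p‖) fun x => expNegInvGlue (r ^ 2 - ‖x - p‖ ^ 2) * q x := by
  intro x hx
  have h2 := norm_sub_norm_le x p
  have h3 : r ^ 2 - ‖x - p‖ ^ 2 ≤ 0 := by nlinarith
  simp only [expNegInvGlue.zero_of_nonpos h3, zero_mul]

theorem eq_zero_of_eta {p : E3} {r : ℝ} (hr : 0 < r) {q : E3 → ℝ} (hq : Continuous q)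
    (h0 : ∀ x, 0 ≤ q x) (h : ∫ x, expNegInvGlue (r ^ 2 - ‖x - p‖ ^ 2) * q x ≤ 0) : q p = 0 := by
  by_contra hne
  have hpos : 0 < expNegInvGlue (r ^ 2 - ‖p - p‖ ^ 2) :=
    expNegInvGlue.pos_of_pos (by simp; positivity)
  have hc : Continuous fun x => expNegInvGlue (r ^ 2 - ‖x - p‖ ^ 2) * q x :=
    (continuous_eta.comp (by fun_prop)).mul hq
  have := hc.integral_pos_of_hasCompactSupport_nonneg_nonzero (μ := volume) (x := p)
    (supp_eta p hr.le q).hasCompactSupport
    (fun x => mul_nonneg (expNegInvGlue.nonneg _) (h0 _)) (mul_ne_zero hpos.ne' hne)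
  exact absurd h (not_le.mpr this)

end Pool.Agent.BoltzM.BoltzC
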