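import Pool.Agent.BoltzM.Lin.YF
import Pool.Agent.BoltzM.Calc.XSob

/-! The energy form on compactly supported hydrodynamic functions of `y`. -/

set_option autoImplicit false

open Filter Topology MeasureTheory Set Pool.Agent.BoltzM.BoltzC

noncomputable section

namespace Pool.Agent.BoltzM.Lin

variable [Dim]

variable {n : ℕ} {θ : ℝ} {σ : E3 → ℝ} {G G' H : E3 → SV}

theorem lev_add (n : ℕ) (θ σ : ℝ) (φ ψ : List Ix → ℕ → ℝ) :
    lev n θ σ (fun u m => φ u m + ψ u m) = lev n θ σ φ + lev n θ σ ψ := by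
  simp only [lev, Finset.sum_add_distrib, mul_add]

theorem lev_mul (n : ℕ) (θ σ c : ℝ) (φ : List Ix → ℕ → ℝ) :
    lev n θ σ (fun u m => c * φ u m) = c * lev n θ σ φ := by
  simp only [lev, Finset.mul_sum]
  exact Finset.sum_congr rfl fun j _ => Finset.sum_congr rfl fun m _ =>
    Finset.sum_congr rfl fun u _ => by ring

theorem lev_mono (hθ : 0 ≤ θ) (σ : ℝ) {φ ψ : List Ix → ℕ → ℝ} (h : ∀ u m, φ u m ≤ ψ u m) :
    lev n θ σ φ ≤ lev n θ σ ψ :=
  Finset.sum_le_sum fun j _ => Finset.sum_le_sum fun m _ =>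
    mul_le_mul_of_nonneg_left (Finset.sum_le_sum fun u _ => h u m)
      (mul_nonneg (pow_nonneg hθ _) (by rw [pow_mul]; positivity))

theorem lev_zero (n : ℕ) (θ σ : ℝ) : lev n θ σ (fun _ _ => 0) = 0 := by simp [lev]

theorem bb_add_l (hG : Sm G) (hG' : Sm G') (x : E3) :
    bb n θ σ (fun y => G y + G' y) H x = bb n θ σ G H x + bb n θ σ G' H x := by
  simp only [bb, dXw_add hG hG', map_add, LinearMap.add_apply, lev_add]

theorem bb_smul_l (hG : Sm G) (c : ℝ) (x : E3) :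
    bb n θ σ (fun y => c • G y) H x = c * bb n θ σ G H x := by
  simp only [bb, dXw_const_smul hG, map_smul, LinearMap.smul_apply, smul_eq_mul, lev_mul]

theorem bb_symm (G H : E3 → SV) (x : E3) : bb n θ σ G H x = bb n θ σ H G x := by
  simp only [bb, ← nB_apply]
  congr 1
  funext u m
  exact nB_comm _ _ _

theorem bb_nn (hθ : 0 ≤ θ) (G : E3 → SV) (x : E3) : 0 ≤ bb n θ σ G G x := by
  rw [← lev_zero n θ (σ x)]
  exact lev_mono hθ _ fun u m => by rw [← nA_eq_ip_RR]; exact nA_nonneg _ _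

theorem two_bb_le (hθ : 0 ≤ θ) (G H : E3 → SV) {L : ℝ} (hL : 0 < L) (x : E3) :
    2 * bb n θ σ G H x ≤ L⁻¹ * bb n θ σ G G x + L * bb n θ σ H H x := by
  simp only [bb, ← lev_mul, ← lev_add, ← nB_apply]
  refine lev_mono hθ _ fun u m => ?_
  have h := abs_two_bilin_le (nB m) (nB_comm m) (fun a => by rw [nB_self]; exact nA_nonneg _ _) hL
    (dXw u G x) (dXw u H x)
  rw [nB_comm m (dXw u H x) (dXw u G x), div_eq_inv_mul] at h
  linarith [le_abs_self (nB m (dXw u G x) (dXw u H x) + nB m (dXw u G x) (dXw u H x))]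

theorem ip_le_bb (hθ : 0 ≤ θ) (G : E3 → SV) (x : E3) : ip (G x) (G x) ≤ bb n θ σ G G x := by
  have hn : ∀ j m, 0 ≤ θ ^ (j + m) * σ x ^ (2 * j) *
      ∑ u ∈ words j, ip (dXw u G x) (RR m (dXw u G x)) := fun j m =>
    mul_nonneg (mul_nonneg (pow_nonneg hθ _) (by rw [pow_mul]; positivity))
      (Finset.sum_nonneg fun u _ => by rw [← nA_eq_ip_RR]; exact nA_nonneg _ _)
  refine le_trans ?_ (Finset.single_le_sum (fun j _ => Finset.sum_nonneg fun m _ => hn j m)
    (Finset.mem_range.mpr (Nat.succ_pos n)))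
  refine le_trans ?_ (Finset.single_le_sum (fun m _ => hn 0 m)
    (Finset.mem_range.mpr (Nat.succ_pos n)))
  simp [words]

theorem dX_le_bb (hn1 : 1 ≤ n) (hθ : 0 ≤ θ) (G : E3 → SV) (x : E3) :
    θ * σ x ^ 2 * ∑ i, ip (dX i G x) (dX i G x) ≤ bb n θ σ G G x := by
  have hn : ∀ j m, 0 ≤ θ ^ (j + m) * σ x ^ (2 * j) *
      ∑ u ∈ words j, ip (dXw u G x) (RR m (dXw u G x)) := fun j m =>
    mul_nonneg (mul_nonneg (pow_nonneg hθ _) (by rw [pow_mul]; positivity))
      (Finset.sum_nonneg fun u _ => by rw [← nA_eq_ip_RR]; exact nA_nonneg _ _)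
  refine le_trans ?_ (Finset.single_le_sum (fun j _ => Finset.sum_nonneg fun m _ => hn j m)
    (Finset.mem_range.mpr (Nat.succ_lt_succ hn1)))
  refine le_trans ?_ (Finset.single_le_sum (a := 0) (fun m _ => hn 1 m)
    (Finset.mem_range.mpr (by omega)))
  rw [sum_words_succ]
  simp [words]

theorem cont_bb (hσ : Continuous σ) (hG : Sm G) (hH : Sm H) : Continuous (bb n θ σ G H) := by
  unfold bb lev
  refine continuous_finsetSum _ fun j _ => continuous_finsetSum _ fun m _ =>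
    (continuous_const.mul (hσ.pow _)).mul (continuous_finsetSum _ fun u _ => ?_)
  exact ((hG.dXw u).ip ((hH.dXw u).clm (RR m))).cont

theorem supp_bb {ρ : ℝ} (h : Supp ρ G) (H : E3 → SV) : Supp ρ (bb n θ σ G H) := fun x hx => by
  simp only [bb, fun u => h.dXw u x hx, map_zero, LinearMap.zero_apply, lev_zero]

theorem bb_congr {σ' : E3 → ℝ} {H' : E3 → SV} {x x' : E3} (h0 : σ x = σ' x')
    (h1 : ∀ u, dXw u G x = dXw u G' x') (h2 : ∀ u, dXw u H x = dXw u H' x') :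
    bb n θ σ G H x = bb n θ σ' G' H' x' := by
  simp only [bb, h0, h1, h2]

theorem bb_scale {σ' : E3 → ℝ} (hG : Sm G) (hH : Sm H) (lam : ℝ) {x : E3}
    (h0 : σ x * lam = σ' (lam • x)) :
    bb n θ σ (fun y => G (lam • y)) (fun y => H (lam • y)) x = bb n θ σ' G H (lam • x) := by
  simp only [bb, lev, dXw_scale hG, dXw_scale hH, ← h0, Finset.mul_sum, map_smul,
    LinearMap.smul_apply, smul_eq_mul]
  refine Finset.sum_congr rfl fun j _ => Finset.sum_congr rfl fun m _ =>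
    Finset.sum_congr rfl fun u hu => ?_
  rw [mem_words.mp hu]
  ring

/-- Compactly supported smooth hydrodynamic functions. -/
def DD : Submodule ℝ (E3 → SV) where
  carrier := {φ | Sm φ ∧ (∃ R, 0 ≤ R ∧ Supp R φ) ∧ ∀ y, PP (φ y) = φ y}
  add_mem' := by
    rintro φ ψ ⟨h1, ⟨R, hR, h2⟩, h3⟩ ⟨k1, ⟨S, -, k2⟩, k3⟩
    refine ⟨h1.add k1, ⟨max R S, hR.trans (le_max_left _ _), fun x hx => ?_⟩, fun y => ?_⟩
    · rw [Pi.add_apply, h2 x ((le_max_left _ _).trans_lt hx), k2 x ((le_max_right _ _).trans_lt hx),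
        add_zero]
    · rw [Pi.add_apply, map_add, h3, k3]
  zero_mem' := ⟨Sm.const 0, ⟨0, le_rfl, fun _ _ => rfl⟩, fun _ => map_zero _⟩
  smul_mem' := by
    rintro c φ ⟨h1, ⟨R, hR, h2⟩, h3⟩
    refine ⟨h1.const_smul c, ⟨R, hR, fun x hx => ?_⟩, fun y => ?_⟩
    · rw [Pi.smul_apply, h2 x hx, smul_zero]
    · rw [Pi.smul_apply, map_smul, h3]

theorem inD_iff {φ : E3 → SV} : InD φ ↔ φ ∈ DD := by
  constructor
  · rintro ⟨h1, h2, h3⟩
    obtain ⟨R, hR, h⟩ := h2.exists_pos_le_norm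
    exact ⟨h1, ⟨R, hR.le, fun x hx => h x hx.le⟩, h3⟩
  · rintro ⟨h1, ⟨R, -, h2⟩, h3⟩
    exact ⟨h1, h2.hasCompactSupport, h3⟩

theorem exists_supp_family {ι : Type} [Fintype ι] {φ : ι → E3 → SV} (h : ∀ i, φ i ∈ DD) :
    ∃ R, 0 ≤ R ∧ ∀ i, Supp R (φ i) := by
  choose R h0 hR using fun i => (h i).2.1
  exact ⟨∑ i, R i, Finset.sum_nonneg fun i _ => h0 i, fun i =>
    (hR i).mono (Finset.single_le_sum (fun i _ => h0 i) (Finset.mem_univ i))⟩

/-- The energy in the variable `y`. -/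
def BY (n : ℕ) (θ a : ℝ) (ν : BgD) (φ ψ : E3 → SV) : ℝ := ∫ y, wy a y * bb n θ (sy ν) φ ψ y

/-- Local `L^2` norm. -/
def NY (ρ : ℝ) (φ : E3 → SV) : ℝ := ∫ y, expNegInvGlue (ρ ^ 2 - ‖y‖ ^ 2) * ip (φ y) (φ y)

theorem integrable_BY {a ρ : ℝ} {ν : BgD} (hG : Sm G) (h : Supp ρ G) (hH : Sm H) :
    Integrable fun y => wy a y * bb n θ (sy ν) G H y :=
  Supp.integrable (ρ := ρ) (fun x hx => by simp only [supp_bb h H x hx, mul_zero])
    ((continuous_wy a).mul (cont_bb (continuous_sy ν) hG hH))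

theorem BY_symm (a : ℝ) (ν : BgD) (G H : E3 → SV) : BY n θ a ν G H = BY n θ a ν H G := by
  simp only [BY, bb_symm G H]

theorem BY_nonneg (hθ : 0 ≤ θ) (a : ℝ) (ν : BgD) (G : E3 → SV) : 0 ≤ BY n θ a ν G G :=
  integral_nonneg fun y => mul_nonneg (wy_pos a y).le (bb_nn hθ G y)

theorem BY_add_l {a : ℝ} {ν : BgD} (hG : G ∈ DD) (hG' : G' ∈ DD) (hH : Sm H) :
    BY n θ a ν (G + G') H = BY n θ a ν G H + BY n θ a ν G' H := by
  obtain ⟨R, -, hR⟩ := hG.2.1
  obtain ⟨R', -, hR'⟩ := hG'.2.1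
  simp only [BY]
  rw [← integral_add (integrable_BY hG.1 hR hH) (integrable_BY hG'.1 hR' hH)]
  congr 1
  funext y
  rw [← mul_add, ← bb_add_l hG.1 hG'.1]
  rfl

theorem BY_smul_l {a : ℝ} {ν : BgD} (hG : Sm G) (c : ℝ) :
    BY n θ a ν (c • G) H = c * BY n θ a ν G H := by
  simp only [BY]
  rw [← integral_const_mul]
  congr 1
  funext y
  rw [mul_left_comm, ← bb_smul_l hG]
  rfl

/-- The energy as a bilinear form. -/
def BF (n : ℕ) (θ a : ℝ) (ν : BgD) : DD →ₗ[ℝ] DD →ₗ[ℝ] ℝ :=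
  LinearMap.mk₂ ℝ (fun φ ψ => BY n θ a ν φ ψ) (fun φ φ' ψ => BY_add_l φ.2 φ'.2 ψ.2.1)
    (fun c φ _ => BY_smul_l φ.2.1 c)
    (fun φ ψ ψ' => by
      rw [BY_symm, BY_symm a ν φ, BY_symm a ν φ]; exact BY_add_l ψ.2 ψ'.2 φ.2.1)
    (fun c φ ψ => by rw [BY_symm, BY_symm a ν φ]; exact BY_smul_l ψ.2.1 c)

theorem BF_apply (a : ℝ) (ν : BgD) (φ ψ : DD) : BF n θ a ν φ ψ = BY n θ a ν φ ψ := rfl

theorem BF_symm (a : ℝ) (ν : BgD) (φ ψ : DD) : BF n θ a ν φ ψ = BF n θ a ν ψ φ := BY_symm a ν _ _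

theorem BF_nonneg (hθ : 0 ≤ θ) (a : ℝ) (ν : BgD) (φ : DD) : 0 ≤ BF n θ a ν φ φ := BY_nonneg hθ a ν _

/-- Change of variables from the torus to the whole space. -/
theorem tint_eq_integral {Ψ ψ : E3 → ℝ} {s ρ : ℝ} (hp : Per Ψ) (hc : Continuous ψ) (hs : Supp ρ ψ)
    (hρ : Real.exp (-s) * ρ < 1 / 4)
    (h : ∀ x, ‖x‖ ≤ 1 / 4 → Ψ x = Real.exp s ^ dd * ψ (Real.exp s • x))
    (h0 : ∀ x, box (1 / 2) x → 1 / 4 < ‖x‖ → Ψ x = 0) : tint Ψ = ∫ y, ψ y := by
  have hs' : Supp (1 / 4) fun x => Real.exp s ^ dd * ψ (Real.exp s • x) := by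
    intro x hx
    have h2 := mul_lt_mul_of_pos_left (hρ.trans hx) (Real.exp_pos s)
    rw [← mul_assoc, ← Real.exp_add] at h2
    simp only [add_neg_cancel, Real.exp_zero, one_mul] at h2
    simp only [hs _ (by rw [norm_exp_smul]; exact h2), mul_zero]
  have e : Ψ = per fun x => Real.exp s ^ dd * ψ (Real.exp s • x) := by
    funext x
    rw [← hp.red x, per]
    by_cases hx : ‖red x‖ ≤ 1 / 4
    · exact h _ hx
    · rw [h0 _ (box_red x) (not_le.mp hx)]
      exact (hs' _ (not_le.mp hx)).symm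
  rw [e, tint_per (by fun_prop) hs' (by norm_num), integral_const_mul,
    integral_scale _ (Real.exp_pos s), ← mul_assoc, mul_inv_cancel₀ (by positivity), one_mul]

theorem supp_scale_exp {α : Type*} [Zero α] {φ : E3 → α} {R s ρ : ℝ} (hφ : Supp R φ)
    (hs : Real.exp (-s) * R ≤ ρ) : Supp ρ fun x => φ (Real.exp s • x) := by
  refine (hφ.scale (Real.exp_pos s)).mono ?_
  rwa [div_eq_inv_mul, ← Real.exp_neg]

/-- The torus energy paired with a rescaled compactly supported function. -/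
theorem E_per' (B : BgD) (a : ℝ) {φ : E3 → SV} {R s : ℝ} (hφ : Sm φ) (hR : Supp R φ)
    (h8 : Real.exp (-s) * R ≤ 1 / 8) (hG : Sm G) (pG : Per G) :
    B.E n θ a s (per fun x => φ (Real.exp s • x)) G =
      BY n θ a B φ fun y => G (Real.exp (-s) • y) := by
  have hs : Real.exp (-s) * R < 1 / 4 := h8.trans_lt (by norm_num)
  have hsφ : Supp (Real.exp (-s) * R) fun x => φ (Real.exp s • x) := supp_scale_exp hR le_rfl
  have hd := fun u => dXw_per (hφ.scale (Real.exp s)) hsφ (hs.trans (by norm_num)) u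
  refine tint_eq_integral (s := s) (ρ := R) ?_
    ((continuous_wy a).mul (cont_bb (continuous_sy _) hφ (hG.scale _)))
    (fun x hx => by simp only [supp_bb hR _ x hx, mul_zero]) hs (fun x hx => ?_) fun x hx h4 => ?_
  · intro i x
    simp only [per_om B a s i x]
    congr 1
    exact bb_congr (per_sig B s i x) (fun u => (per_per _).dXw u i x) fun u => pG.dXw u i x
  · rw [om_eq B a s hx, mul_assoc]
    congr 2
    by_cases hx8 : ‖x‖ ≤ 1 / 8
    · rw [← bb_scale hφ (hG.scale _) (Real.exp s) (σ := B.sig s)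
        (by rw [sig_eq B s hx8, mul_right_comm, ← Real.exp_add]; simp)]
      refine bb_congr rfl (fun u => ?_) fun u => ?_
      · rw [hd u, per_eq _ (hx.trans_lt (by norm_num))]
      · simp only [exp_neg_smul_exp]
    · have h0 := h8.trans_lt (not_le.mp hx8)
      have h1 : ∀ u, dXw u (per fun x => φ (Real.exp s • x)) x = 0 := fun u => by
        rw [hd u, per_eq _ (hx.trans_lt (by norm_num))]
        exact hsφ.dXw u x h0
      have h2 := mul_lt_mul_of_pos_left h0 (Real.exp_pos s)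
      rw [← mul_assoc, ← Real.exp_add, add_neg_cancel, Real.exp_zero, one_mul] at h2
      rw [supp_bb hR _ _ (by rw [norm_exp_smul]; exact h2)]
      simp only [bb, h1, map_zero, LinearMap.zero_apply, lev_zero]
  · have h1 : ∀ u, dXw u (per fun x => φ (Real.exp s • x)) x = 0 := fun u => by
      rw [hd u]
      by_cases h2 : ‖x‖ < 1 / 2
      · rw [per_eq _ h2]
        exact hsφ.dXw u x (hs.trans h4)
      · refine hsφ.dXw u _ (hs.trans ?_)
        by_contra h3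
        have h5 : ‖red x‖ < 1 / 2 := (not_lt.mp h3).trans_lt (by norm_num)
        apply h2
        have : red x = x := by
          ext i
          have h6 : |red x i| ≤ 1 / 4 := box_of_norm_le (not_lt.mp h3) i
          have h7 := hx i
          rw [red_apply] at h6 ⊢
          have h8 : |((round (x i) : ℤ) : ℝ)| < 1 := by
            have := abs_sub_abs_le_abs_sub ((round (x i) : ℤ) : ℝ) (x i)
            rw [abs_sub_comm] at this
            linarith
          have h9 : round (x i) = 0 := by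
            have : |round (x i)| < 1 := by exact_mod_cast h8
            exact Int.abs_lt_one_iff.mp this
          simp [h9]
        rwa [this] at h5
    simp only [bb, h1, map_zero, LinearMap.zero_apply, lev_zero, mul_zero]

theorem E_per (B : BgD) (a : ℝ) {φ : E3 → SV} {R s : ℝ} (hφ : Sm φ) (hR : Supp R φ)
    (hs : Real.exp (-s) * R < 1 / 8) (hG : Sm G) (pG : Per G) :
    B.E n θ a s (B.per φ s) G = BY n θ a B φ fun y => G (Real.exp (-s) • y) := by
  rw [per_eq_per B hR hs, E_per' B a hφ hR hs.le hG pG]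

theorem BY_congr {a R : ℝ} {ν : BgD} {φ H' : E3 → SV} (hR : Supp R φ)
    (h : ∀ y, ‖y‖ ≤ R → H =ᶠ[𝓝 y] H') : BY n θ a ν φ H = BY n θ a ν φ H' := by
  unfold BY
  congr 1
  funext y
  by_cases hy : ‖y‖ ≤ R
  · rw [bb_congr rfl (fun _ => rfl) fun u => dXw_congr_ev (h y hy) u]
  · rw [supp_bb hR H y (not_le.mp hy), supp_bb hR H' y (not_le.mp hy)]

theorem E_per_per' (B : BgD) (a : ℝ) {φ ψ : E3 → SV} {R s : ℝ} (hφ : Sm φ) (hR : Supp R φ)
    (hψ : Sm ψ) (hR' : Supp R ψ) (h8 : Real.exp (-s) * R ≤ 1 / 8) :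
    B.E n θ a s (per fun x => φ (Real.exp s • x)) (per fun x => ψ (Real.exp s • x)) =
      BY n θ a B φ ψ := by
  have hs : Real.exp (-s) * R < 1 / 4 := h8.trans_lt (by norm_num)
  rw [E_per' B a hφ hR h8 ((hψ.scale _).per (supp_scale_exp hR' le_rfl) (hs.trans (by norm_num)))
    (per_per _)]
  refine BY_congr hR fun y hy => ?_
  have h1 : ‖Real.exp (-s) • y‖ < 1 / 2 := by
    rw [norm_exp_smul]
    exact lt_of_le_of_lt (by gcongr) (hs.trans (by norm_num))
  have h2 : Continuous fun z : E3 => ‖Real.exp (-s) • z‖ := by fun_prop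
  filter_upwards [h2.continuousAt.eventually (gt_mem_nhds h1)] with z hz
  rw [per_eq _ hz, exp_smul_exp_neg]

theorem E_per_per (B : BgD) (a : ℝ) {φ ψ : E3 → SV} {R s : ℝ} (hφ : Sm φ) (hR : Supp R φ)
    (hψ : Sm ψ) (hR' : Supp R ψ) (hs : Real.exp (-s) * R < 1 / 8) :
    B.E n θ a s (B.per φ s) (B.per ψ s) = BY n θ a B φ ψ := by
  rw [per_eq_per B hR hs, per_eq_per B hR' hs,
    E_per_per' B a hφ hR hψ hR' hs.le]

end Pool.Agent.BoltzM.Lin
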